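import Pool.Agent.LSG.Stmts

/-!
# Squad LSG, row RPV: continuous linear maps of C_p(X) are given by finitely supported coefficients (helper46)
-/

set_option autoImplicit false

namespace Pool.Agent.LSG.H46

open MeasureTheory Set Topology Pool.Agent.LSG

theorem rpv_ev (X : Type) [TopologicalSpace X] (L : C(X, ℝ) →ₗ[ℝ] ℝ)
    (hL : Continuous fun f : {g : X → ℝ // Continuous g} => L ⟨f.1, f.2⟩) :
    ∃ c : X →₀ ℝ, ∀ f : C(X, ℝ), L f = c.sum fun x t => t * f x := by
  classical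
  have hop : IsOpen ((fun f : {g : X → ℝ // Continuous g} => L ⟨f.1, f.2⟩) ⁻¹'
      (Metric.ball (0 : ℝ) 1)) := hL.isOpen_preimage _ Metric.isOpen_ball
  rw [isOpen_induced_iff] at hop
  obtain ⟨U, hU, hUe⟩ := hop
  have h0 : (fun _ : X => (0 : ℝ)) ∈ U := by
    have hm : (⟨fun _ => (0 : ℝ), continuous_const⟩ : {g : X → ℝ // Continuous g}) ∈
        (fun f : {g : X → ℝ // Continuous g} => L ⟨f.1, f.2⟩) ⁻¹' (Metric.ball (0 : ℝ) 1) := by
      show L ⟨fun _ => (0 : ℝ), continuous_const⟩ ∈ Metric.ball (0 : ℝ) 1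
      have : (⟨fun _ => (0 : ℝ), continuous_const⟩ : C(X, ℝ)) = 0 := rfl
      rw [this, map_zero]
      simp
    rw [← hUe] at hm
    exact hm
  obtain ⟨I, u, hu, hIU⟩ := isOpen_pi_iff.1 hU _ h0
  have hker : ∀ f : C(X, ℝ), (∀ x ∈ I, f x = 0) → |L f| < 1 := by
    intro f hf
    have hm : (⇑f : X → ℝ) ∈ U := by
      apply hIU
      intro x hx
      rw [hf x hx]
      exact (hu x hx).2
    have hm2 : (⟨⇑f, f.continuous⟩ : {g : X → ℝ // Continuous g}) ∈
        Subtype.val ⁻¹' U := hm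
    rw [hUe] at hm2
    have hm3 : L ⟨⇑f, f.continuous⟩ ∈ Metric.ball (0 : ℝ) 1 := hm2
    rw [mem_ball_zero_iff, Real.norm_eq_abs] at hm3
    exact hm3
  have hzero : ∀ f : C(X, ℝ), (∀ x ∈ I, f x = 0) → L f = 0 := by
    intro f hf
    by_contra hne
    have h1 := hker ((2 / L f) • f) (fun x hx => by simp [hf x hx])
    rw [map_smul, smul_eq_mul, div_mul_cancel₀ _ hne] at h1
    norm_num at h1
  let ev : I → (C(X, ℝ) →ₗ[ℝ] ℝ) := fun i =>
    { toFun := fun f => f i.1, map_add' := fun f g => rfl, map_smul' := fun a f => rfl }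
  have hspan : L ∈ Submodule.span ℝ (Set.range ev) := by
    apply mem_span_of_iInf_ker_le_ker
    intro f hf
    rw [Submodule.mem_iInf] at hf
    rw [LinearMap.mem_ker]
    apply hzero
    intro x hx
    exact LinearMap.mem_ker.1 (hf ⟨x, hx⟩)
  obtain ⟨c, hc⟩ := (Submodule.mem_span_range_iff_exists_fun ℝ).1 hspan
  refine ⟨∑ i : I, Finsupp.single i.1 (c i), fun f => ?_⟩
  rw [← Finsupp.sum_finsetSum_index (fun _ => by simp) (fun _ _ _ => by ring)]
  rw [← hc]
  simp [ev]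

theorem rpv : RpvStmt := by
  intro X Y _ _ T hT
  have hy : ∀ y : Y, ∃ c : X →₀ ℝ, ∀ f : C(X, ℝ), T f y = c.sum fun x t => t * f x := by
    intro y
    let L : C(X, ℝ) →ₗ[ℝ] ℝ :=
      { toFun := fun f => T f y
        map_add' := fun f g => by rw [map_add]; rfl
        map_smul' := fun a f => by rw [map_smul]; rfl }
    exact rpv_ev X L ((continuous_apply y).comp hT)
  choose c hc using hy
  exact ⟨c, fun f y => hc y f⟩

end Pool.Agent.LSG.H46
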